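import Mathlib

/-!
# Algebraically independent coordinates on an irreducible variety
-/

namespace Pool.Agent.Lib.MP_a325a5_ag.Y1

open MvPolynomial

/-- Krull dimension does not increase in integral extensions. -/
theorem krullDim_le_of_integral' {A R : Type*} [CommRing A] [CommRing R]
    (g : A →+* R) (hint : g.IsIntegral) : ringKrullDim R ≤ ringKrullDim A := by
  algebraize [g]
  have : Algebra.IsIntegral A R := ⟨hint⟩
  apply Order.krullDim_le_of_strictMono (fun P : PrimeSpectrum R => PrimeSpectrum.comap g P)
  intro P Q hPQ
  have h := Ideal.IsIntegral.comap_lt_comap (R := A) (I := P.asIdeal) (J := Q.asIdeal) hPQ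
  exact h

/-- On an irreducible affine variety of dimension at least `d` some `d` coordinates are
algebraically independent. -/
theorem exists_coords {k : Type*} [Field k] {n : ℕ} (P : Ideal (MvPolynomial (Fin n) k))
    [P.IsPrime] :
    ∃ T : Finset (Fin n), ringKrullDim (MvPolynomial (Fin n) k ⧸ P) ≤ T.card ∧
      AlgebraicIndependent k (fun t : {t // t ∈ T} => Ideal.Quotient.mk P (X t.1)) := by
  classical
  let A := MvPolynomial (Fin n) k ⧸ P
  let x : Fin n → A := fun i => Ideal.Quotient.mk P (X i)
  obtain ⟨s, g, hinj, hint⟩ := exists_integral_inj_algHom_of_fg k A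
  have hdim : ringKrullDim A ≤ s := by
    have h1 : ringKrullDim (MvPolynomial (Fin s) k) = s := by simp
    rw [← h1]
    exact krullDim_le_of_integral' g.toRingHom hint
  have hind : AlgebraicIndependent k (fun i : Fin s => g (X i)) := by
    rw [algebraicIndependent_iff]
    intro q hq
    have h1 : aeval (fun i : Fin s => g (X i)) q = g q := by
      have : (aeval (fun i : Fin s => g (X i)) : MvPolynomial (Fin s) k →ₐ[k] A) = g := by
        apply MvPolynomial.algHom_ext
        intro i
        simp
      rw [this]
    rw [h1] at hq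
    exact hinj (by rw [hq, map_zero])
  have htr : (s : Cardinal) ≤ Algebra.trdeg k A := by
    have := hind.lift_cardinalMk_le_trdeg
    simpa using this
  have hadj : Algebra.adjoin k (Set.range x) = ⊤ := by
    have h1 : Set.range x = (Ideal.Quotient.mkₐ k P) '' (Set.range X) := by
      rw [← Set.range_comp]; rfl
    rw [h1, ← AlgHom.map_adjoin, MvPolynomial.adjoin_range_X, Algebra.map_top,
      AlgHom.range_eq_top]
    exact Ideal.Quotient.mkₐ_surjective k P
  have halg : Algebra.IsAlgebraic (Algebra.adjoin k (Set.range x)) A := by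
    rw [hadj]
    refine ⟨fun a => ?_⟩
    exact isAlgebraic_algebraMap (⟨a, Algebra.mem_top⟩ : (⊤ : Subalgebra k A))
  obtain ⟨t, hts, ht⟩ := exists_isTranscendenceBasis_subset (R := k) (Set.range x)
  have hft : t.Finite := (Set.finite_range x).subset hts
  have : Fintype t := hft.fintype
  have hex : ∀ a : t, ∃ i, x i = a.1 := fun a => hts a.2
  choose f hf using hex
  refine ⟨Finset.univ.image f, ?_, ?_⟩
  · have hfinj : Function.Injective f := by
      intro a b hab
      apply Subtype.ext
      rw [← hf a, ← hf b, hab]
    rw [Finset.card_image_of_injective _ hfinj, Finset.card_univ]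
    refine hdim.trans ?_
    have h2 := ht.lift_cardinalMk_eq_trdeg
    have h3 : (s : Cardinal) ≤ (Fintype.card t : Cardinal) := by
      refine htr.trans ?_
      rw [← Cardinal.lift_le, ← h2]
      simp
    exact_mod_cast h3
  · let e : {i // i ∈ Finset.univ.image f} → t := fun i => ⟨x i.1, by
      obtain ⟨a, -, ha⟩ := Finset.mem_image.mp i.2
      rw [← ha, hf]
      exact a.2⟩
    have he : Function.Injective e := by
      intro i j hij
      obtain ⟨a, -, ha⟩ := Finset.mem_image.mp i.2
      obtain ⟨b, -, hb⟩ := Finset.mem_image.mp j.2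
      have h1 : x i.1 = x j.1 := congrArg Subtype.val hij
      apply Subtype.ext
      rw [← ha, ← hb] at h1 ⊢
      rw [hf, hf] at h1
      rw [Subtype.ext h1]
    exact ht.1.comp e he

end Pool.Agent.Lib.MP_a325a5_ag.Y1
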