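import Pool.Agent.Lib.MP_a325a5_ag.Y1.ModRel

/-!
# Valuations: existence, integral relations, dominating corner monomials
-/

namespace Pool.Agent.Lib.MP_a325a5_ag.Y1

open MvPolynomial Pool.Agent.Lib.ModPoly29

/-- A valuation with residue characteristic `p` on an extension field of `ℂ` at which given
algebraically independent elements are integral. -/
theorem exists_val {E : Type*} [Field E] [Algebra ℂ E] {T : Type} (y : T → E)
    (hy : AlgebraicIndependent ℂ y) (p : ℕ) (hp : p.Prime) :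
    ∃ B : ValuationSubring E, B.valuation (p : E) < 1 ∧ ∀ t, B.valuation (y t) ≤ 1 := by
  classical
  let ψ : MvPolynomial T ℤ →+* E := eval₂Hom (Int.castRingHom E) y
  have hψ : ∀ q, ψ q = 0 → q = 0 := by
    intro q hq
    have h1 : ψ q = aeval y (map (Int.castRingHom ℂ) q) := by
      rw [aeval_def, eval₂_map]
      show eval₂ _ _ _ = _
      congr 1
      exact RingHom.ext_int _ _
    rw [h1] at hq
    have h2 := (algebraicIndependent_iff.mp hy) _ hq
    exact map_injective (Int.castRingHom ℂ) Int.cast_injective (by rw [h2, map_zero])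
  have hpm : (p : E) ∈ ψ.range := ⟨(p : MvPolynomial T ℤ), by simp⟩
  let a : ψ.range := ⟨(p : E), hpm⟩
  have hne : Ideal.span {a} ≠ ⊤ := by
    intro h
    rw [Ideal.span_singleton_eq_top] at h
    obtain ⟨b, hb⟩ := isUnit_iff_exists_inv.mp h
    obtain ⟨q, hq⟩ := b.2
    have h1 : (p : E) * ψ q = 1 := by
      rw [hq]
      exact congrArg Subtype.val hb
    have h2 : ψ ((p : MvPolynomial T ℤ) * q - 1) = 0 := by
      rw [map_sub, map_mul, map_natCast, h1, map_one, sub_self]
    have h3 := hψ _ h2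
    have h4 : (p : ℤ) * coeff 0 q = 1 := by
      have h5 := congrArg (coeff 0) h3
      have h6 : ((p : ℕ) : MvPolynomial T ℤ) = C (p : ℤ) := by simp
      rw [h6, coeff_sub, coeff_C_mul, coeff_zero, coeff_zero_one] at h5
      linarith
    have h5 : (p : ℤ) ∣ 1 := ⟨_, h4.symm⟩
    have h6 := Int.natCast_dvd_natCast.mp (by exact_mod_cast h5 : ((p : ℕ) : ℤ) ∣ ((1 : ℕ) : ℤ))
    exact hp.one_lt.ne' (Nat.dvd_one.mp h6)
  obtain ⟨B, hB1, hB2⟩ := Ideal.image_subset_nonunits_valuationSubring _ hne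
  refine ⟨B, ?_, fun t => ?_⟩
  · have h1 : (p : E) ∈ B.nonunits := hB2 ⟨a, Ideal.subset_span rfl, rfl⟩
    exact (B.mem_nonunits_iff).mp h1
  · rw [B.valuation_le_one_iff]
    exact hB1 ⟨X t, by simp [ψ]⟩

section val

variable {K : Type*} [Field K] {Γ₀ : Type*} [LinearOrderedCommGroupWithZero Γ₀]
  (v : Valuation K Γ₀)

/-- the value at an integral element of an integral polynomial is integral -/
lemma val_aeval_le_one (p : Polynomial ℤ) (x : K) (hx : v x ≤ 1) :
    v (Polynomial.aeval x p) ≤ 1 := by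
  rw [Polynomial.aeval_eq_sum_range]
  apply v.map_sum_le
  intro i _
  rw [zsmul_eq_mul, map_mul, map_pow]
  exact mul_le_one' (val_int_le v _) (pow_le_one' hx i)

/-- roots of monic integral relations over an integral element are integral -/
lemma val_le_of_bev {P : Polynomial (Polynomial ℤ)} (hP : P.Monic) {x y : K}
    (h : bev P x y = 0) (hx : v x ≤ 1) : v y ≤ 1 := by
  by_contra hcon
  push Not at hcon
  have hy0 : 0 < v y := lt_trans zero_lt_one hcon
  unfold bev at h
  rw [Polynomial.eval₂_eq_sum_range, Finset.sum_range_succ] at h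
  have h1 : v ((Polynomial.aeval x : Polynomial ℤ →ₐ[ℤ] K).toRingHom
      (P.coeff P.natDegree) * y ^ P.natDegree) = v y ^ P.natDegree := by
    rw [Polynomial.Monic.coeff_natDegree hP, map_one, one_mul, map_pow]
  have h2 : v (∑ i ∈ Finset.range P.natDegree,
      (Polynomial.aeval x : Polynomial ℤ →ₐ[ℤ] K).toRingHom (P.coeff i) * y ^ i) <
      v y ^ P.natDegree := by
    apply v.map_sum_lt (pow_ne_zero _ hy0.ne')
    intro i hi
    rw [Finset.mem_range] at hi
    rw [map_mul, map_pow]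
    calc v ((Polynomial.aeval x : Polynomial ℤ →ₐ[ℤ] K).toRingHom (P.coeff i)) * v y ^ i
        ≤ 1 * v y ^ i := mul_le_mul' (val_aeval_le_one v _ x hx) le_rfl
      _ = v y ^ i := one_mul _
      _ < v y ^ P.natDegree := pow_lt_pow_right₀ hcon hi
  have h3 := congrArg v h
  rw [map_zero, Valuation.map_add_eq_of_lt_right v (lt_of_lt_of_eq h2 h1.symm), h1] at h3
  exact (pow_ne_zero _ hy0.ne') h3

/-- integers prime to the residue characteristic are units -/
lemma val_eq_one_of_not_dvd {p : ℕ} (hp : p.Prime) (hv : v (p : K) < 1) (c : ℤ)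
    (hc : ¬ (p : ℤ) ∣ c) : v (c : K) = 1 := by
  have hcop : IsCoprime (c : ℤ) (p : ℤ) := by
    rw [Int.isCoprime_iff_gcd_eq_one, Int.gcd_comm]
    exact (Nat.Prime.coprime_iff_not_dvd hp).mpr (fun h => hc (Int.natCast_dvd.mpr h))
  obtain ⟨a, b, hab⟩ := hcop
  have h1 : (a : K) * c + b * p = 1 := by exact_mod_cast congrArg (Int.cast : ℤ → K) hab
  apply le_antisymm (val_int_le v c)
  by_contra hlt
  push Not at hlt
  have h2 : v ((a : K) * c + b * p) < 1 := by
    apply lt_of_le_of_lt (v.map_add _ _)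
    apply max_lt
    · rw [map_mul]
      exact lt_of_le_of_lt (mul_le_of_le_one_left' (val_int_le v a)) hlt
    · rw [map_mul]
      exact lt_of_le_of_lt (mul_le_of_le_one_left' (val_int_le v b)) hv
  rw [h1, map_one] at h2
  exact lt_irrefl _ h2

/-- the exponent vector equal to `M` on `B` and to `0` off `B` -/
noncomputable def corner {n : ℕ} (M : Fin n → ℕ) (B : Finset (Fin n)) : Fin n →₀ ℕ :=
  Finsupp.equivFunOnFinite.symm (fun i => if i ∈ B then M i else 0)

lemma corner_apply {n : ℕ} (M : Fin n → ℕ) (B : Finset (Fin n)) (i : Fin n) :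
    corner M B i = if i ∈ B then M i else 0 := rfl

/-- **Dominance.** A polynomial whose coefficients are divisible by `p` except at the corners of an
antichain of sets has no zero at which the set of non-integral coordinates is a member of the
antichain. -/
theorem dominance {n : ℕ} (f : MvPolynomial (Fin n) ℤ) (M : Fin n → ℕ) (hM : ∀ i, 1 ≤ M i)
    (hdeg : ∀ i, degreeOf i f ≤ M i) (x : Fin n → K) {p : ℕ} (hp : p.Prime) (hv : v (p : K) < 1)
    (𝓑 : Set (Finset (Fin n))) (B : Finset (Fin n)) (hBx : ∀ i, i ∈ B ↔ 1 < v (x i))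
    (hB : B ∈ 𝓑) (hanti : ∀ B' ∈ 𝓑, B' ≠ B → ∃ i ∈ B, i ∉ B')
    (h0 : ∀ m, (p : ℤ) ∣ coeff m f ∨ ∃ B' ∈ 𝓑, m = corner M B')
    (h1 : ¬ (p : ℤ) ∣ coeff (corner M B) f) : aeval x f ≠ 0 := by
  classical
  intro hzero
  set m₀ := corner M B with hm₀
  set W : Γ₀ := ∏ i, v (x i) ^ (m₀ i) with hW
  have hfac : ∀ i, 0 < v (x i) ^ (m₀ i) := by
    intro i
    by_cases hi : i ∈ B
    · exact pow_pos (lt_trans zero_lt_one ((hBx i).mp hi)) _
    · rw [hm₀, corner_apply, if_neg hi, pow_zero]
      exact zero_lt_one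
  have hone : ∀ i, 1 ≤ v (x i) ^ (m₀ i) := by
    intro i
    by_cases hi : i ∈ B
    · exact one_le_pow_of_one_le' ((hBx i).mp hi).le _
    · rw [hm₀, corner_apply, if_neg hi, pow_zero]
  have hW1 : 1 ≤ W := Finset.one_le_prod' fun i _ => hone i
  have hW0 : 0 < W := lt_of_lt_of_le zero_lt_one hW1
  have hle : ∀ m : Fin n →₀ ℕ, m ∈ f.support → ∀ i, v (x i) ^ (m i) ≤ v (x i) ^ (m₀ i) := by
    intro m hm i
    have hmi : m i ≤ M i := (monomial_le_degreeOf i hm).trans (hdeg i)
    by_cases hi : i ∈ B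
    · rw [hm₀, corner_apply, if_pos hi]
      exact pow_le_pow_right₀ ((hBx i).mp hi).le hmi
    · rw [hm₀, corner_apply, if_neg hi, pow_zero]
      have : v (x i) ≤ 1 := by
        by_contra h
        push Not at h
        exact hi ((hBx i).mpr h)
      exact pow_le_one' this _
  have hval : ∀ m : Fin n →₀ ℕ, v (((coeff m f : ℤ) : K) * ∏ i, x i ^ (m i)) =
      v ((coeff m f : ℤ) : K) * ∏ i, v (x i) ^ (m i) := by
    intro m
    rw [map_mul, map_prod]
    simp only [map_pow]
  have hmem : m₀ ∈ f.support := by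
    rw [mem_support_iff]
    intro h
    exact h1 (by rw [h]; exact dvd_zero _)
  have hsum : aeval x f = ∑ m ∈ f.support, ((coeff m f : ℤ) : K) * ∏ i, x i ^ (m i) := by
    rw [aeval_def, eval₂_eq']
    rfl
  rw [hsum, ← Finset.add_sum_erase _ _ hmem] at hzero
  have hmain : v (((coeff m₀ f : ℤ) : K) * ∏ i, x i ^ (m₀ i)) = W := by
    rw [hval, val_eq_one_of_not_dvd v hp hv _ h1, one_mul]
  have hrest : v (∑ m ∈ f.support.erase m₀, ((coeff m f : ℤ) : K) * ∏ i, x i ^ (m i)) < W := by
    apply v.map_sum_lt hW0.ne'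
    intro m hm
    obtain ⟨hmne, hm⟩ := Finset.mem_erase.mp hm
    rw [hval]
    have hprod : ∏ i, v (x i) ^ (m i) ≤ W := Finset.prod_le_prod' fun i _ => hle m hm i
    rcases h0 m with hdvd | ⟨B', hB', rfl⟩
    · have h2 : v ((coeff m f : ℤ) : K) < 1 := by
        obtain ⟨c, hc⟩ := hdvd
        rw [hc]
        push_cast
        rw [map_mul]
        exact lt_of_le_of_lt (mul_le_of_le_one_right' (val_int_le v c)) hv
      calc v ((coeff m f : ℤ) : K) * ∏ i, v (x i) ^ (m i)
          ≤ v ((coeff m f : ℤ) : K) * W := mul_le_mul' le_rfl hprod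
        _ < 1 * W := mul_lt_mul_of_pos_right h2 hW0
        _ = W := one_mul _
    · have hBne : B' ≠ B := by
        rintro rfl
        exact hmne rfl
      obtain ⟨i₀, hi₀, hi₀'⟩ := hanti B' hB' hBne
      have h3 : ∏ i, v (x i) ^ (corner M B' i) < W := by
        rw [hW, ← Finset.mul_prod_erase _ _ (Finset.mem_univ i₀),
          ← Finset.mul_prod_erase _ (fun i => v (x i) ^ (m₀ i)) (Finset.mem_univ i₀)]
        have h4 : v (x i₀) ^ (corner M B' i₀) < v (x i₀) ^ (m₀ i₀) := by
          rw [corner_apply, if_neg hi₀', pow_zero, hm₀, corner_apply, if_pos hi₀]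
          exact one_lt_pow₀ ((hBx i₀).mp hi₀) (by have := hM i₀; omega)
        have h5 : ∏ i ∈ Finset.univ.erase i₀, v (x i) ^ (corner M B' i) ≤
            ∏ i ∈ Finset.univ.erase i₀, v (x i) ^ (m₀ i) :=
          Finset.prod_le_prod' fun i _ => hle _ hm i
        have h6 : 0 < ∏ i ∈ Finset.univ.erase i₀, v (x i) ^ (m₀ i) :=
          Finset.prod_pos fun i _ => hfac i
        calc v (x i₀) ^ (corner M B' i₀) * ∏ i ∈ Finset.univ.erase i₀, v (x i) ^ (corner M B' i)
            ≤ v (x i₀) ^ (corner M B' i₀) * ∏ i ∈ Finset.univ.erase i₀, v (x i) ^ (m₀ i) :=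
              mul_le_mul' le_rfl h5
          _ < v (x i₀) ^ (m₀ i₀) * ∏ i ∈ Finset.univ.erase i₀, v (x i) ^ (m₀ i) :=
              mul_lt_mul_of_pos_right h4 h6
      exact lt_of_le_of_lt (mul_le_of_le_one_left' (val_int_le v _)) h3
  have h7 := congrArg v hzero
  rw [map_zero, Valuation.map_add_eq_of_lt_left v (lt_of_lt_of_eq hrest hmain.symm), hmain] at h7
  exact hW0.ne' h7

end val

end Pool.Agent.Lib.MP_a325a5_ag.Y1
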