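import Pool.Agent.Lib.ModPoly29.Isogeny

/-!
# Monic integral relations between the `j`-invariants of isogenous elliptic curves
-/

open Polynomial UpperHalfPlane MatrixGroups

namespace Pool.Agent.Lib.MP_a325a5_ag.Y1

open Pool.Agent.Lib.ModPoly29

/-- value of a bivariate integral polynomial `P(X, Y)` (outer variable `Y`) at `(x, y)` -/
noncomputable def bev {K : Type*} [CommRing K] (P : ℤ[X][X]) (x y : K) : K :=
  P.eval₂ (aeval x : ℤ[X] →ₐ[ℤ] K).toRingHom y

lemma hom_ext_X {R : Type*} [CommRing R] {f g : ℤ[X] →+* R} (h : f X = g X) : f = g :=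
  Polynomial.ringHom_ext' (RingHom.ext_int _ _) h

lemma bev_map {K L : Type*} [CommRing K] [CommRing L] (f : K →+* L) (P : ℤ[X][X]) (x y : K) :
    f (bev P x y) = bev P (f x) (f y) := by
  unfold bev
  rw [hom_eval₂]
  congr 1
  apply hom_ext_X
  simp

/-- Elimination of the middle variable. -/
lemma exists_comp (P Q : ℤ[X][X]) (hP : P.Monic) (hQ : Q.Monic) :
    ∃ R : ℤ[X][X], R.Monic ∧ ∀ (x y z : ℂ), bev P x y = 0 → bev Q y z = 0 → bev R x z = 0 := by
  classical
  let A := AdjoinRoot P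
  let y₀ : A := AdjoinRoot.root P
  let φ : ℤ[X] →+* A := (aeval y₀ : ℤ[X] →ₐ[ℤ] A).toRingHom
  let Q' : A[X] := Q.map φ
  have hQ' : Q'.Monic := hQ.map φ
  let B := AdjoinRoot Q'
  let z₀ : B := AdjoinRoot.root Q'
  have hA : Algebra.IsIntegral ℤ[X] A := by
    have : Module.Finite ℤ[X] A := hP.finite_adjoinRoot
    infer_instance
  have hB : Algebra.IsIntegral A B := by
    have : Module.Finite A B := hQ'.finite_adjoinRoot
    infer_instance
  let ψ : ℤ[X] →+* B := (algebraMap A B).comp (algebraMap ℤ[X] A)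
  have hint : ψ.IsIntegral := by
    apply RingHom.IsIntegral.trans
    · exact fun x => hA.isIntegral x
    · exact fun x => hB.isIntegral x
  obtain ⟨R, hR, hR0⟩ := hint z₀
  refine ⟨R, hR, ?_⟩
  intro x y z h1 h2
  let f : A →+* ℂ := AdjoinRoot.lift (aeval x : ℤ[X] →ₐ[ℤ] ℂ).toRingHom y h1
  have hf : f.comp φ = (aeval y : ℤ[X] →ₐ[ℤ] ℂ).toRingHom := by
    apply hom_ext_X
    have e1 : φ X = y₀ := by simp [φ]
    rw [RingHom.comp_apply, e1]
    have e2 : f y₀ = y := AdjoinRoot.lift_root h1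
    rw [e2]
    simp
  have h2' : eval₂ f z Q' = 0 := by
    rw [eval₂_map, hf]
    exact h2
  let g : B →+* ℂ := AdjoinRoot.lift f z h2'
  have hg : g (eval₂ ψ z₀ R) = bev R x z := by
    rw [hom_eval₂]
    unfold bev
    have e1 : g z₀ = z := AdjoinRoot.lift_root h2'
    rw [e1]
    congr 1
    apply hom_ext_X
    have e2 : ψ X = AdjoinRoot.of Q' (AdjoinRoot.of P X) := rfl
    have e3 : g (AdjoinRoot.of Q' (AdjoinRoot.of P X)) = f (AdjoinRoot.of P X) :=
      AdjoinRoot.lift_of h2'
    have e4 : f (AdjoinRoot.of P X) = (aeval x : ℤ[X] →ₐ[ℤ] ℂ).toRingHom X :=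
      AdjoinRoot.lift_of h1
    rw [RingHom.comp_apply, e2, e3, e4]
  rw [← hg, hR0, map_zero]

theorem exists_rel (N : ℕ) : ∀ (a b c d : ℤ), a * d - b * c = N → 0 < N →
    ∃ P : ℤ[X][X], P.Monic ∧ ∀ (τ τ' : ℍ),
      (τ' : ℂ) * ((c : ℂ) * τ + (d : ℂ)) = (a : ℂ) * τ + (b : ℂ) → bev P (jj τ) (jj τ') = 0 := by
  induction N using Nat.strong_induction_on with
  | _ N ih =>
    intro a b c d hdet hN
    by_cases hN1 : N = 1
    · refine ⟨X - C X, monic_X_sub_C _, ?_⟩
      intro τ τ' h
      rw [jj_eq_of_sl a b c d (by rw [hdet, hN1]; rfl) τ τ' h]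
      simp [bev]
    · obtain ⟨l, hl, hlN⟩ := Nat.exists_prime_and_dvd hN1
      have : Fact l.Prime := ⟨hl⟩
      have hlN' : (l : ℤ) ∣ a * d - b * c := by rw [hdet]; exact_mod_cast hlN
      obtain ⟨M, hM⟩ := hlN
      have hM0 : 0 < M := by
        rcases Nat.eq_zero_or_pos M with h0 | h0
        · rw [h0, mul_zero] at hM; omega
        · exact h0
      have hMN : M < N := by
        rw [hM]
        exact lt_mul_of_one_lt_left hM0 hl.one_lt
      obtain ⟨p, q, r, s, hpq, ⟨a', ha'⟩, ⟨c', hc'⟩⟩ := exists_primitive hl a b c d hlN'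
      have hdet' : a' * (c * r + d * s) - (a * r + b * s) * c' = M := by
        have hl0 : (l : ℤ) ≠ 0 := by exact_mod_cast hl.ne_zero
        apply mul_left_cancel₀ hl0
        have e1 : (l : ℤ) * (M : ℤ) = a * d - b * c := by rw [hdet, hM]; push_cast; ring
        rw [e1]
        calc (l : ℤ) * (a' * (c * r + d * s) - (a * r + b * s) * c')
            = (l * a') * (c * r + d * s) - (a * r + b * s) * (l * c') := by ring
          _ = (a * p + b * q) * (c * r + d * s) - (a * r + b * s) * (c * p + d * q) := by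
              rw [← ha', ← hc']
          _ = (a * d - b * c) * (p * s - r * q) := by ring
          _ = a * d - b * c := by rw [hpq, mul_one]
      obtain ⟨Q, hQ, hQ0⟩ := ih M hMN a' (a * r + b * s) c' (c * r + d * s) hdet' hM0
      obtain ⟨co, -, -, -, -, h5⟩ := modular_equation l
      let P : ℤ[X][X] := X ^ (l + 1) + ∑ i ∈ Finset.range (l + 1), C (co i) * X ^ i
      have hPm : P.Monic := by
        apply monic_X_pow_add
        apply lt_of_le_of_lt (degree_sum_le _ _)
        rw [Finset.sup_lt_iff (WithBot.bot_lt_coe _)]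
        intro i hi
        apply lt_of_le_of_lt (degree_C_mul_X_pow_le _ _)
        rw [Finset.mem_range] at hi
        exact_mod_cast hi
      obtain ⟨R, hR, hR0⟩ := exists_comp P Q hPm hQ
      refine ⟨R, hR, ?_⟩
      intro τ τ' h
      obtain ⟨σ, hσ1, hσ2, hσ3⟩ := exists_inv p q r s hpq τ
      rw [← hσ1]
      apply hR0 _ (jj (pt l none σ))
      · have := h5 none σ
        unfold bev
        simp only [P, eval₂_add, eval₂_pow, eval₂_X, eval₂_finsetSum, eval₂_mul, eval₂_C]
        exact this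
      · apply hQ0
        have ha'' : (a : ℂ) * p + b * q = l * a' := by exact_mod_cast ha'
        have hc'' : (c : ℂ) * p + d * q = l * c' := by exact_mod_cast hc'
        rw [coe_pt_none]
        push_cast
        have e1 : (c' : ℂ) * (l * σ) + (c * r + d * s) = ((q : ℂ) * σ + s) * (c * τ + d) := by
          linear_combination (-(σ : ℂ)) * hc'' - (c : ℂ) * hσ3
        have e2 : (a' : ℂ) * (l * σ) + (a * r + b * s) = ((q : ℂ) * σ + s) * (a * τ + b) := by
          linear_combination (-(σ : ℂ)) * ha'' - (a : ℂ) * hσ3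
        rw [e1, e2]
        linear_combination ((q : ℂ) * σ + s) * h

end Pool.Agent.Lib.MP_a325a5_ag.Y1
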