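import Pool.Agent.Lib.MP_a325a5_ag.Y1.Dominance

/-!
# The antichain argument
-/

namespace Pool.Agent.Lib.MP_a325a5_ag.Y1

open MvPolynomial UpperHalfPlane Pool.Agent.Lib.ModPoly29

/-- The sets that are unions of exactly `k` of the classes `π ⁻¹ (some a)`. -/
def lev {n m : ℕ} (π : Fin n → Option (Fin m)) (k : ℕ) : Set (Finset (Fin n)) :=
  {B | (∀ i ∈ B, π i ≠ none) ∧ (∀ i ∈ B, ∀ j, π j = π i → j ∈ B) ∧ (B.image π).card = k}

lemma lev_anti {n m : ℕ} (π : Fin n → Option (Fin m)) (k : ℕ) {B B' : Finset (Fin n)}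
    (hB : B ∈ lev π k) (hB' : B' ∈ lev π k) (hne : B' ≠ B) : ∃ i ∈ B, i ∉ B' := by
  by_contra hcon
  push Not at hcon
  apply hne
  have h1 : B ⊆ B' := hcon
  have h2 : B.image π = B'.image π := by
    apply Finset.eq_of_subset_of_card_le (Finset.image_subset_image h1)
    rw [hB.2.2, hB'.2.2]
  apply Finset.Subset.antisymm _ h1
  intro j hj
  have h3 : π j ∈ B.image π := by
    rw [h2]
    exact Finset.mem_image_of_mem _ hj
  obtain ⟨i, hi, hij⟩ := Finset.mem_image.mp h3
  exact hB.2.1 i hi j hij.symm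

/-- The condition on the coefficients of the system: at a prime attached to the pattern `π` the
coefficients of the `k`-th polynomial prime to `p` are exactly those at the corners of the unions
of `k` classes. -/
def Good {n m : ℕ} (M : Fin (m + 1) → Fin n → ℕ) (f : Fin (m + 1) → MvPolynomial (Fin n) ℤ) :
    Prop :=
  ∀ π : Fin n → Option (Fin m), ∃ p : ℕ, p.Prime ∧ ∀ k : Fin (m + 1),
    (∀ μ, (p : ℤ) ∣ coeff μ (f k) ∨ ∃ B ∈ lev π k, μ = corner (M k) B) ∧
    (∀ B ∈ lev π k, ¬ (p : ℤ) ∣ coeff (corner (M k) B) (f k))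

lemma not_related {E : Type*} [Field E] [Algebra ℂ E] {T : Type*} (y : T → E)
    (hy : AlgebraicIndependent ℂ y) {t t' : T} (hne : t ≠ t') (P : Polynomial (Polynomial ℤ))
    (hP : P.Monic) : bev P (y t) (y t') ≠ 0 := by
  intro h
  have h1 : Transcendental (Algebra.adjoin ℂ (y '' {t})) (y t') :=
    hy.transcendental_adjoin (by simpa using hne.symm)
  apply h1
  have hmem : y t ∈ Algebra.adjoin ℂ (y '' {t}) :=
    Algebra.subset_adjoin ⟨t, rfl, rfl⟩
  let u : Algebra.adjoin ℂ (y '' {t}) := ⟨y t, hmem⟩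
  let φ : Polynomial ℤ →+* Algebra.adjoin ℂ (y '' {t}) :=
    (Polynomial.aeval u : Polynomial ℤ →ₐ[ℤ] _).toRingHom
  refine ⟨P.map φ, (hP.map φ).ne_zero, ?_⟩
  rw [Polynomial.aeval_def, Polynomial.eval₂_map]
  have h2 : (algebraMap (Algebra.adjoin ℂ (y '' {t})) E).comp φ =
      (Polynomial.aeval (y t) : Polynomial ℤ →ₐ[ℤ] E).toRingHom := by
    apply hom_ext_X
    simp [φ, u]
  rw [h2]
  exact h

theorem main_E {n m : ℕ} (M : Fin (m + 1) → Fin n → ℕ) (hM : ∀ k i, 1 ≤ M k i)
    (f : Fin (m + 1) → MvPolynomial (Fin n) ℤ) (hdeg : ∀ k i, degreeOf i (f k) ≤ M k i)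
    (hgood : Good M f) {E : Type*} [Field E] [Algebra ℂ E] (y : Fin n → E)
    (hy : ∀ k, aeval y (f k) = 0) {s : ℕ} (cls : Fin n → Option (Fin s))
    (hnone : ∀ i, cls i = none → ∃ τ : ℍ, (∃ a b c : ℤ, a ≠ 0 ∧
      (a : ℂ) * τ ^ 2 + b * τ + c = 0) ∧ y i = algebraMap ℂ E (jj τ))
    (hrel : ∀ i j a, cls i = some a → cls j = some a →
      ∃ P : Polynomial (Polynomial ℤ), P.Monic ∧ bev P (y i) (y j) = 0)
    (T : Finset (Fin n)) (hT : AlgebraicIndependent ℂ (fun t : {t // t ∈ T} => y t.1)) :
    T.card + (m + 1) ≤ s := by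
  classical
  -- the classes of the coordinates in `T` are distinct
  have hTsome : ∀ t ∈ T, cls t ≠ none := by
    intro t ht h
    obtain ⟨τ, -, hτ⟩ := hnone t h
    have h1 := hT.transcendental ⟨t, ht⟩
    apply h1
    show IsAlgebraic ℂ (y t)
    rw [hτ]
    exact isAlgebraic_algebraMap _
  have hTinj : ∀ t ∈ T, ∀ t' ∈ T, cls t = cls t' → t = t' := by
    intro t ht t' ht' h
    by_contra hne
    obtain ⟨a, ha⟩ := Option.ne_none_iff_exists'.mp (hTsome t ht)
    obtain ⟨P, hP, hP0⟩ := hrel t t' a ha (by rw [← h, ha])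
    exact not_related (fun t : {t // t ∈ T} => y t.1) hT (t := ⟨t, ht⟩) (t' := ⟨t', ht'⟩)
      (fun e => hne (congrArg Subtype.val e)) P hP hP0
  by_contra hcon
  push Not at hcon
  -- the remaining classes
  let A : Finset (Fin s) := Finset.univ.filter fun a => ∀ t ∈ T, cls t ≠ some a
  have hAcard : A.card ≤ m := by
    have h1 : A.card + T.card ≤ s := by
      have h2 : (T.image cls).card = T.card :=
        Finset.card_image_of_injOn (fun t ht t' ht' h => hTinj t ht t' ht' h)
      have h3 : (A.image some ∪ T.image cls) ⊆ (Finset.univ : Finset (Fin s)).image some := by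
        intro o ho
        rcases Finset.mem_union.mp ho with ho | ho
        · obtain ⟨a, -, rfl⟩ := Finset.mem_image.mp ho
          exact Finset.mem_image_of_mem _ (Finset.mem_univ _)
        · obtain ⟨t, ht, rfl⟩ := Finset.mem_image.mp ho
          obtain ⟨a, ha⟩ := Option.ne_none_iff_exists'.mp (hTsome t ht)
          rw [ha]
          exact Finset.mem_image_of_mem _ (Finset.mem_univ _)
      have h4 : Disjoint (A.image some) (T.image cls) := by
        rw [Finset.disjoint_left]
        intro o ho ho'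
        obtain ⟨a, ha, rfl⟩ := Finset.mem_image.mp ho
        obtain ⟨t, ht, hta⟩ := Finset.mem_image.mp ho'
        exact (Finset.mem_filter.mp ha).2 t ht hta
      have h5 := Finset.card_le_card h3
      rw [Finset.card_union_of_disjoint h4, h2,
        Finset.card_image_of_injective _ (Option.some_injective _),
        Finset.card_image_of_injective _ (Option.some_injective _), Finset.card_univ,
        Fintype.card_fin] at h5
      exact h5
    omega
  obtain ⟨e⟩ : Nonempty ({a // a ∈ A} ↪ Fin m) := by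
    apply Function.Embedding.nonempty_of_card_le
    simpa using hAcard
  let π : Fin n → Option (Fin m) := fun i =>
    (cls i).bind fun a => if h : a ∈ A then some (e ⟨a, h⟩) else none
  obtain ⟨p, hp, hpk⟩ := hgood π
  obtain ⟨R, hR1, hR2⟩ := exists_val (fun t : {t // t ∈ T} => y t.1) hT p hp
  let v := R.valuation
  let B : Finset (Fin n) := Finset.univ.filter fun i => 1 < v (y i)
  have hBmem : ∀ i, i ∈ B ↔ 1 < v (y i) := fun i => by simp [B]
  -- the structure of the bad set
  have hbad : ∀ i ∈ B, ∃ a, cls i = some a ∧ ∃ h : a ∈ A, π i = some (e ⟨a, h⟩) := by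
    intro i hi
    rw [hBmem] at hi
    rcases hcls : cls i with _ | a
    · exfalso
      obtain ⟨τ, ⟨a, b, c, ha, habc⟩, hτ⟩ := hnone i hcls
      have h1 := val_cm (v.comap (algebraMap ℂ E)) τ a b c ha habc
      rw [Valuation.comap_apply, ← hτ] at h1
      exact absurd hi (not_lt.mpr h1)
    · refine ⟨a, rfl, ?_⟩
      have haA : a ∈ A := by
        refine Finset.mem_filter.mpr ⟨Finset.mem_univ _, ?_⟩
        intro t ht hta
        obtain ⟨P, hP, hP0⟩ := hrel t i a hta hcls
        have h1 := val_le_of_bev v hP hP0 (hR2 ⟨t, ht⟩)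
        exact absurd hi (not_lt.mpr h1)
      refine ⟨haA, ?_⟩
      simp only [π, hcls, Option.bind_some, dif_pos haA]
  have hlev : B ∈ lev π (B.image π).card := by
    refine ⟨?_, ?_, rfl⟩
    · intro i hi
      obtain ⟨a, -, h, h'⟩ := hbad i hi
      rw [h']
      exact Option.some_ne_none _
    · intro i hi j hij
      obtain ⟨a, ha, h, h'⟩ := hbad i hi
      rw [h'] at hij
      obtain ⟨a', ha', haa⟩ := Option.bind_eq_some_iff.mp hij
      have hA' : a' ∈ A := by
        by_contra hA'
        rw [dif_neg hA'] at haa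
        exact absurd haa.symm (Option.some_ne_none _)
      rw [dif_pos hA'] at haa
      have h2 : a' = a := congrArg Subtype.val (e.injective (Option.some_injective _ haa))
      rw [h2] at ha'
      rw [hBmem] at hi ⊢
      obtain ⟨P, hP, hP0⟩ := hrel j i a ha' ha
      by_contra hj
      push Not at hj
      exact absurd hi (not_lt.mpr (val_le_of_bev v hP hP0 hj))
  have hcard : (B.image π).card < m + 1 := by
    have h1 : B.image π ⊆ (Finset.univ : Finset (Fin m)).image some := by
      intro o ho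
      obtain ⟨i, hi, rfl⟩ := Finset.mem_image.mp ho
      obtain ⟨a, -, h, h'⟩ := hbad i hi
      rw [h']
      exact Finset.mem_image_of_mem _ (Finset.mem_univ _)
    have h2 := Finset.card_le_card h1
    rw [Finset.card_image_of_injective _ (Option.some_injective _), Finset.card_univ,
      Fintype.card_fin] at h2
    omega
  obtain ⟨h1, h2⟩ := hpk ⟨(B.image π).card, hcard⟩
  exact dominance v (f ⟨_, hcard⟩) (M ⟨_, hcard⟩) (hM _) (hdeg _) y hp hR1
    (lev π (B.image π).card) B hBmem hlev (fun B' hB' hne => lev_anti π _ hlev hB' hne) h1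
    (h2 B hlev) (hy _)

end Pool.Agent.Lib.MP_a325a5_ag.Y1
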