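import Pool.Agent.Lib.MP_a325a5_ag.Y1.Special

/-!
# Residue classes of systems satisfying the condition `Good`
-/

namespace Pool.Agent.Lib.MP_a325a5_ag.Y1

open MvPolynomial

/-- a prime attached to each pattern -/
noncomputable def pr {n m : ℕ} (π : Fin n → Option (Fin m)) : ℕ :=
  Nat.nth Nat.Prime (Fintype.equivFin (Fin n → Option (Fin m)) π)

lemma pr_prime {n m : ℕ} (π : Fin n → Option (Fin m)) : (pr π).Prime :=
  Nat.prime_nth_prime _

lemma pr_injective {n m : ℕ} : Function.Injective (pr : (Fin n → Option (Fin m)) → ℕ) := by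
  intro π π' h
  have h1 := Nat.nth_injective Nat.infinite_setOf_prime h
  exact (Fintype.equivFin _).injective (Fin.ext h1)

lemma exists_residue {n m : ℕ} (x : (Fin n → Option (Fin m)) → ℤ) :
    ∃ c : ℤ, ∀ π, ((pr π : ℕ) : ℤ) ∣ c - x π := by
  have hcop : Pairwise (Function.onFun IsCoprime
      (fun π : Fin n → Option (Fin m) => Ideal.span {((pr π : ℕ) : ℤ)})) := by
    intro π π' hne
    show IsCoprime _ _
    rw [Ideal.isCoprime_span_singleton_iff]
    have h1 : (pr π).Coprime (pr π') :=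
      (Nat.coprime_primes (pr_prime π) (pr_prime π')).mpr (fun h => hne (pr_injective h))
    exact Nat.isCoprime_iff_coprime.mpr h1
  obtain ⟨c, hc⟩ := Ideal.exists_forall_sub_mem_ideal hcop x
  exact ⟨c, fun π => Ideal.mem_span_singleton.mp (hc π)⟩

theorem exists_good {n m : ℕ} (M : Fin (m + 1) → Fin n → ℕ) :
    ∃ (N : ℕ) (c : Fin (m + 1) → (Fin n →₀ ℕ) → ℤ), 0 < N ∧
      ∀ f : Fin (m + 1) → MvPolynomial (Fin n) ℤ, (∀ k i, degreeOf i (f k) ≤ M k i) →
        (∀ k μ, (∀ i, μ i ≤ M k i) → (N : ℤ) ∣ coeff μ (f k) - c k μ) → Good M f := by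
  classical
  choose c hc using fun (k : Fin (m + 1)) (μ : Fin n →₀ ℕ) =>
    exists_residue (fun π : Fin n → Option (Fin m) =>
      if ∃ B ∈ lev π k, μ = corner (M k) B then (1 : ℤ) else 0)
  refine ⟨∏ π : Fin n → Option (Fin m), pr π, c,
    Finset.prod_pos fun π _ => (pr_prime π).pos, ?_⟩
  intro f hdeg hf π
  refine ⟨pr π, pr_prime π, fun k => ?_⟩
  have hdvd : ((pr π : ℕ) : ℤ) ∣ ((∏ π : Fin n → Option (Fin m), pr π : ℕ) : ℤ) :=
    Int.natCast_dvd_natCast.mpr (Finset.dvd_prod_of_mem _ (Finset.mem_univ π))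
  have key : ∀ μ : Fin n →₀ ℕ, (∀ i, μ i ≤ M k i) → ((pr π : ℕ) : ℤ) ∣ coeff μ (f k) -
      (if ∃ B ∈ lev π k, μ = corner (M k) B then (1 : ℤ) else 0) := by
    intro μ hμ
    have h1 := dvd_add (hdvd.trans (hf k μ hμ)) (hc k μ π)
    have h2 : coeff μ (f k) - c k μ + (c k μ -
        (if ∃ B ∈ lev π k, μ = corner (M k) B then (1 : ℤ) else 0)) = coeff μ (f k) -
        (if ∃ B ∈ lev π k, μ = corner (M k) B then (1 : ℤ) else 0) := by ring
    rwa [h2] at h1
  refine ⟨fun μ => ?_, fun B hB => ?_⟩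
  · by_cases hμ : ∀ i, μ i ≤ M k i
    · by_cases hB : ∃ B ∈ lev π k, μ = corner (M k) B
      · exact Or.inr hB
      · left
        have := key μ hμ
        rwa [if_neg hB, sub_zero] at this
    · left
      push Not at hμ
      obtain ⟨i, hi⟩ := hμ
      have h0 : coeff μ (f k) = 0 := by
        by_contra h
        have h1 := (monomial_le_degreeOf i (mem_support_iff.mpr h)).trans (hdeg k i)
        omega
      rw [h0]
      exact dvd_zero _
  · have h1 : ∀ i, corner (M k) B i ≤ M k i := by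
      intro i
      rw [corner_apply]
      split_ifs
      · exact le_rfl
      · exact Nat.zero_le _
    have h2 := key _ h1
    rw [if_pos ⟨B, hB, rfl⟩] at h2
    intro h3
    have h4 : ((pr π : ℕ) : ℤ) ∣ 1 := by
      have := dvd_sub h3 h2
      simpa using this
    have h5 := Int.natCast_dvd_natCast.mp (by exact_mod_cast h4 : ((pr π : ℕ) : ℤ) ∣ ((1 : ℕ) : ℤ))
    exact (pr_prime π).one_lt.ne' (Nat.dvd_one.mp h5)

end Pool.Agent.Lib.MP_a325a5_ag.Y1
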