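import Pool.Agent.Lib.MP_a325a5_ag.Y1.Pattern
import Pool.Agent.Lib.MP_a325a5_ag.Y1.Coords

/-!
# Special subvarieties of `Y(1)^n` and passage to the generic point
-/

namespace Pool.Agent.Lib.MP_a325a5_ag.Y1

open MvPolynomial UpperHalfPlane Pool.Agent.Lib.ModPoly29

/-- Data describing a special subvariety of dimension `s` of `Y(1)^n = ℂ^n` (coordinates:
`j`-invariants): the coordinates `i` with `cls i = none` are constant, equal to the `j`-invariant of
the CM point `cm i`; the others are distributed over `s` nonempty classes, and within a class the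
`i`-th coordinate is `j (g i • τ)`, where `g i` is an integral matrix with positive determinant and
`τ` is a parameter in the upper half plane common to the class. -/
structure SpecialDatum (n s : ℕ) where
  cls : Fin n → Option (Fin s)
  surj : ∀ a, ∃ i, cls i = some a
  g : Fin n → Matrix (Fin 2) (Fin 2) ℤ
  det_pos : ∀ i, 0 < (g i).det
  cm : Fin n → ℍ
  quadratic : ∀ i, cls i = none → ∃ a b c : ℤ, a ≠ 0 ∧ (a : ℂ) * cm i ^ 2 + b * cm i + c = 0

/-- The special subvariety attached to the datum, as a subset of `ℂ^n`; the point `σ` in the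
definition is `g i • τ a`. -/
def SpecialDatum.carrier {n s : ℕ} (S : SpecialDatum n s) : Set (Fin n → ℂ) :=
  {x | ∃ τ : Fin s → ℍ, ∀ i, (S.cls i = none → x i = jj (S.cm i)) ∧
    ∀ a, S.cls i = some a → ∃ σ : ℍ,
      (σ : ℂ) * ((S.g i 1 0 : ℂ) * τ a + (S.g i 1 1 : ℂ)) =
        (S.g i 0 0 : ℂ) * τ a + (S.g i 0 1 : ℂ) ∧ x i = jj σ}

/-- coordinates in the same class of a special subvariety satisfy a monic integral relation -/
lemma exists_class_rel {n s : ℕ} (S : SpecialDatum n s) (i j : Fin n) (a : Fin s)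
    (hi : S.cls i = some a) (hj : S.cls j = some a) :
    ∃ P : Polynomial (Polynomial ℤ), P.Monic ∧ ∀ x ∈ S.carrier, bev P (x i) (x j) = 0 := by
  set A := S.g i with hA
  set B := S.g j with hB
  have hdA := S.det_pos i
  have hdB := S.det_pos j
  rw [Matrix.det_fin_two] at hdA hdB
  rw [← hA] at hdA
  rw [← hB] at hdB
  -- the matrix `B * adj A`
  set a₁ := B 0 0 * A 1 1 - B 0 1 * A 1 0 with ha₁
  set b₁ := -(B 0 0 * A 0 1) + B 0 1 * A 0 0 with hb₁
  set c₁ := B 1 0 * A 1 1 - B 1 1 * A 1 0 with hc₁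
  set d₁ := -(B 1 0 * A 0 1) + B 1 1 * A 0 0 with hd₁
  have hdet : a₁ * d₁ - b₁ * c₁ = (A 0 0 * A 1 1 - A 0 1 * A 1 0) *
      (B 0 0 * B 1 1 - B 0 1 * B 1 0) := by
    rw [ha₁, hb₁, hc₁, hd₁]; ring
  have hpos : 0 < a₁ * d₁ - b₁ * c₁ := by
    rw [hdet]
    exact mul_pos hdA hdB
  obtain ⟨N, hN⟩ := Int.eq_ofNat_of_zero_le hpos.le
  have hN0 : 0 < N := by
    have : (0 : ℤ) < N := by rw [← hN]; exact hpos
    exact_mod_cast this
  obtain ⟨P, hP, hP0⟩ := exists_rel N a₁ b₁ c₁ d₁ hN hN0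
  refine ⟨P, hP, ?_⟩
  rintro x ⟨τ, hx⟩
  obtain ⟨σ, hσ, hxσ⟩ := (hx i).2 a hi
  obtain ⟨σ', hσ', hxσ'⟩ := (hx j).2 a hj
  rw [← hA] at hσ
  rw [← hB] at hσ'
  rw [hxσ, hxσ']
  apply hP0
  set t : ℂ := (τ a : ℂ) with ht
  have hne : (A 1 0 : ℂ) * t + (A 1 1 : ℂ) ≠ 0 := by
    intro h0
    have him := congrArg Complex.im h0
    have hre := congrArg Complex.re h0
    have htim : 0 < t.im := (τ a).im_pos
    simp only [Complex.add_im, Complex.mul_im, Complex.intCast_re, Complex.intCast_im, zero_mul,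
      add_zero, Complex.zero_im, Complex.add_re, Complex.mul_re, sub_zero, Complex.zero_re]
      at him hre
    have h1 : (A 1 0 : ℝ) = 0 := by
      rcases mul_eq_zero.mp him with h | h
      · exact h
      · exact absurd h htim.ne'
    rw [h1, zero_mul, zero_add] at hre
    have h2 : A 1 0 = 0 := by exact_mod_cast h1
    have h3 : A 1 1 = 0 := by exact_mod_cast hre
    rw [h2, h3] at hdA
    simp at hdA
  apply mul_right_cancel₀ hne
  rw [ha₁, hb₁, hc₁, hd₁]
  push_cast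
  linear_combination ((A 0 0 : ℂ) * A 1 1 - A 0 1 * A 1 0) * hσ' +
    ((σ' : ℂ) * ((B 1 0 : ℂ) * A 1 1 - B 1 1 * A 1 0) -
      ((B 0 0 : ℂ) * A 1 1 - B 0 1 * A 1 0)) * hσ

/-- The main theorem for systems satisfying the explicit condition `Good`. -/
theorem main_special {n m : ℕ} (M : Fin (m + 1) → Fin n → ℕ) (hM : ∀ k i, 1 ≤ M k i)
    (f : Fin (m + 1) → MvPolynomial (Fin n) ℤ) (hdeg : ∀ k i, degreeOf i (f k) ≤ M k i)
    (hgood : Good M f) (Z : Set (Fin n → ℂ)) (hZ : (vanishingIdeal ℂ Z).IsPrime)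
    (hZf : ∀ z ∈ Z, ∀ k, aeval z (f k) = 0) {s : ℕ} (S : SpecialDatum n s)
    (hZS : Z ⊆ S.carrier) :
    ringKrullDim (MvPolynomial (Fin n) ℂ ⧸ vanishingIdeal ℂ Z) + ((m + 1 : ℕ) : WithBot ℕ∞) ≤ s := by
  classical
  obtain ⟨T, hT1, hT2⟩ := exists_coords (vanishingIdeal ℂ Z)
  let A := MvPolynomial (Fin n) ℂ ⧸ vanishingIdeal ℂ Z
  let E := FractionRing A
  let q : MvPolynomial (Fin n) ℂ →ₐ[ℂ] E :=
    (IsScalarTower.toAlgHom ℂ A E).comp (Ideal.Quotient.mkₐ ℂ (vanishingIdeal ℂ Z))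
  have hq : ∀ P ∈ vanishingIdeal ℂ Z, q P = 0 := by
    intro P hP
    show algebraMap A E (Ideal.Quotient.mk _ P) = 0
    rw [Ideal.Quotient.eq_zero_iff_mem.mpr hP, map_zero]
  let y : Fin n → E := fun i => q (X i)
  have hT3 : AlgebraicIndependent ℂ (fun t : {t // t ∈ T} => y t.1) := by
    have h1 := hT2.map' (f := IsScalarTower.toAlgHom ℂ A E)
      (IsFractionRing.injective A E)
    exact h1
  have hmain := main_E M hM f hdeg hgood y (fun k => ?_) S.cls (fun i hi => ?_)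
    (fun i j a hi hj => ?_) T hT3
  · calc ringKrullDim (MvPolynomial (Fin n) ℂ ⧸ vanishingIdeal ℂ Z) +
          ((m + 1 : ℕ) : WithBot ℕ∞) ≤ (T.card : WithBot ℕ∞) + ((m + 1 : ℕ) : WithBot ℕ∞) :=
        add_le_add_left hT1 _
      _ ≤ s := by exact_mod_cast hmain
  · have h3 : ∀ φ : ℤ →+* E, eval₂ φ y (f k) = 0 := by
      intro φ
      have h2 : (q : MvPolynomial (Fin n) ℂ →+* E).comp (map (Int.castRingHom ℂ)) =
          eval₂Hom φ y := by
        apply MvPolynomial.ringHom_ext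
        · intro c
          exact congrArg (fun g : ℤ →+* E => g c) (RingHom.ext_int
            (((q : MvPolynomial (Fin n) ℂ →+* E).comp (map (Int.castRingHom ℂ))).comp C)
            ((eval₂Hom φ y).comp C))
        · intro i; simp [y]
      have h1 : eval₂ φ y (f k) = q (map (Int.castRingHom ℂ) (f k)) :=
        (congrArg (fun g : MvPolynomial (Fin n) ℤ →+* E => g (f k)) h2).symm
      rw [h1]
      apply hq
      rw [mem_vanishingIdeal_iff]
      intro z hz
      rw [← hZf z hz k, aeval_def, eval₂_map, aeval_def]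
      congr 1
    exact h3 _
  · refine ⟨S.cm i, S.quadratic i hi, ?_⟩
    have h1 : q (X i - C (jj (S.cm i))) = 0 := by
      apply hq
      rw [mem_vanishingIdeal_iff]
      intro z hz
      obtain ⟨τ, hτ⟩ := hZS hz
      simp [(hτ i).1 hi]
    rw [map_sub, sub_eq_zero] at h1
    show q (X i) = _
    rw [h1]
    exact q.commutes _
  · obtain ⟨P, hP, hP0⟩ := exists_class_rel S i j a hi hj
    refine ⟨P, hP, ?_⟩
    have h1 : bev P (y i) (y j) = q (bev P (X i) (X j)) :=
      (bev_map (q : MvPolynomial (Fin n) ℂ →+* E) P (X i) (X j)).symm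
    rw [h1]
    apply hq
    rw [mem_vanishingIdeal_iff]
    intro z hz
    have h2 := bev_map ((aeval z : MvPolynomial (Fin n) ℂ →ₐ[ℂ] ℂ) :
      MvPolynomial (Fin n) ℂ →+* ℂ) P (X i) (X j)
    have h3 : (aeval z) (bev P (X i : MvPolynomial (Fin n) ℂ) (X j)) = bev P (z i) (z j) := by
      simpa using h2
    rw [h3]
    exact hP0 z (hZS hz)

end Pool.Agent.Lib.MP_a325a5_ag.Y1
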